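import Pool.Agent.Q179.ES.Gen

namespace Pool.Agent.Q179.ES

open Finset

section graph
variable {V : Type*} [Fintype V] [DecidableEq V] {G : SimpleGraph V} [DecidableRel G.Adj]

variable (G) in
/-- the vertices of degree at least 2 -/
def C : Finset V := univ.filter (fun v => 2 ≤ G.degree v)

theorem mem_C {v : V} : v ∈ C G ↔ 2 ≤ G.degree v := by simp [C]

theorem CU.not_mem_C (h : CU G) (h3 : 3 ≤ Fintype.card V) {v : V} :
    v ∉ C G ↔ G.degree v = 1 := by
  rw [mem_C]; have := h.deg_pos h3 v; omega

theorem CU.card_C (h : CU G) (h3 : 3 ≤ Fintype.card V) :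
    (C G).card = N G 2 + N G 3 + N G 4 := by
  have h1 : (C G).card + N G 1 = Fintype.card V := by
    have : (univ.filter (fun v => G.degree v = 1)) = (C G)ᶜ := by
      ext v; simp only [mem_filter, mem_univ, true_and, mem_compl]; exact (h.not_mem_C h3).symm
    unfold N
    rw [this, Finset.card_add_card_compl]
  have := h.counts h3
  omega

/-- Double count of the edges between the core and the leaves. -/
theorem CU.core_sum (h : CU G) (h3 : 3 ≤ Fintype.card V) :
    2 * (C G).card ≤ ∑ v ∈ C G, (G.neighborFinset v ∩ C G).card := by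
  have e1 : ∑ v ∈ C G, G.degree v + ∑ v ∈ (C G)ᶜ, G.degree v = 2 * Fintype.card V := by
    rw [Finset.sum_add_sum_compl, h.sum_deg]
  have e2 : ∑ v ∈ (C G)ᶜ, G.degree v = ((C G)ᶜ).card := by
    rw [Finset.sum_congr rfl (g := fun _ => 1)]
    · simp
    · intro v hv
      exact (h.not_mem_C h3).1 (Finset.mem_compl.1 hv)
  have e3 : (C G).card + ((C G)ᶜ).card = Fintype.card V := Finset.card_add_card_compl _
  have e4 : ∑ v ∈ C G, G.degree v = ∑ v ∈ C G, (G.neighborFinset v ∩ C G).card
      + ∑ v ∈ C G, (G.neighborFinset v ∩ (C G)ᶜ).card := by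
    rw [← Finset.sum_add_distrib]
    refine Finset.sum_congr rfl fun v _ => ?_
    rw [← G.card_neighborFinset_eq_degree]
    have := Finset.card_inter_add_card_sdiff (G.neighborFinset v) (C G)
    rw [Finset.sdiff_eq_inter_compl] at this
    exact this.symm
  have e5 : ∑ v ∈ C G, (G.neighborFinset v ∩ (C G)ᶜ).card ≤ ((C G)ᶜ).card := by
    have a1 : ∀ v ∈ C G, (G.neighborFinset v ∩ (C G)ᶜ).card =
        ∑ w ∈ (C G)ᶜ, if G.Adj v w then 1 else 0 := by
      intro v _
      rw [Finset.sum_ite, Finset.sum_const_zero, add_zero, Finset.sum_const, smul_eq_mul, mul_one]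
      congr 1
      ext w
      simp only [mem_inter, SimpleGraph.mem_neighborFinset, mem_filter]
      tauto
    rw [Finset.sum_congr rfl a1, Finset.sum_comm, ← e2]
    refine Finset.sum_le_sum fun w _ => ?_
    rw [Finset.sum_ite, Finset.sum_const_zero, add_zero, Finset.sum_const, smul_eq_mul, mul_one,
      ← G.card_neighborFinset_eq_degree]
    refine Finset.card_le_card fun v hv => ?_
    rw [SimpleGraph.mem_neighborFinset]
    exact (Finset.mem_filter.1 hv).2.symm
  omega

theorem inter_sub {v : V} : G.neighborFinset v ∩ C G ⊆ (C G).erase v := by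
  intro w hw
  rw [Finset.mem_inter, SimpleGraph.mem_neighborFinset] at hw
  exact Finset.mem_erase.2 ⟨hw.1.ne', hw.2⟩

theorem CU.three_le (h : CU G) (h3 : 3 ≤ Fintype.card V) : 3 ≤ (C G).card := by
  have h1 := h.core_sum h3
  have h2 : ∑ v ∈ C G, (G.neighborFinset v ∩ C G).card ≤ ∑ v ∈ C G, ((C G).card - 1) := by
    refine Finset.sum_le_sum fun v hv => ?_
    rw [← Finset.card_erase_of_mem hv]
    exact Finset.card_le_card inter_sub
  rw [Finset.sum_const, smul_eq_mul] at h2
  by_contra hc
  have hc' : (C G).card ≤ 2 := by omega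
  have h4 := h.counts h3
  have h5 := h.card_C h3
  interval_cases hcc : (C G).card
  all_goals omega

theorem CU.adj_of_three (h : CU G) (h3 : 3 ≤ Fintype.card V) (hc : (C G).card = 3)
    {u v : V} (hu : u ∈ C G) (hv : v ∈ C G) (huv : u ≠ v) : G.Adj u v := by
  by_contra hn
  have h1 := h.core_sum h3
  have h2 : ∑ v ∈ C G, (G.neighborFinset v ∩ C G).card < ∑ v ∈ C G, 2 := by
    refine Finset.sum_lt_sum (fun v hv => ?_) ⟨u, hu, ?_⟩
    · have := Finset.card_le_card (inter_sub (G := G) (v := v))
      rw [Finset.card_erase_of_mem hv] at this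
      omega
    · have hss : G.neighborFinset u ∩ C G ⊆ ((C G).erase u).erase v := by
        intro w hw
        refine Finset.mem_erase.2 ⟨?_, inter_sub hw⟩
        rintro rfl
        rw [Finset.mem_inter, SimpleGraph.mem_neighborFinset] at hw
        exact hn hw.1
      have := Finset.card_le_card hss
      rw [Finset.card_erase_of_mem (Finset.mem_erase.2 ⟨huv.symm, hv⟩),
        Finset.card_erase_of_mem hu] at this
      omega
  rw [Finset.sum_const, smul_eq_mul] at h2
  omega

variable (G) in
/-- A triangle whose vertices have degrees `p`, `q`, `r`, all other vertices being leaves. -/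
def Tri (p q r : ℕ) : Prop :=
  ∃ a b c : V, G.Adj a b ∧ G.Adj b c ∧ G.Adj a c ∧ G.degree a = p ∧ G.degree b = q ∧
    G.degree c = r ∧ ∀ v, v ≠ a → v ≠ b → v ≠ c → G.degree v = 1

/-- weights for the evaluation -/
noncomputable def wt (p q : ℕ) : ℝ := if q = 1 then 1 else if p = 1 then 0 else 1 / 2

theorem nbr_sum {a b c : V} {p q r : ℕ} (hab : G.Adj a b) (hbc : G.Adj b c) (hac : G.Adj a c)
    (hp : G.degree a = p) (hq : G.degree b = q) (hr : G.degree c = r) (hp1 : p ≠ 1)
    (hq1 : q ≠ 1) (hr1 : r ≠ 1)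
    (hv : ∀ v, v ≠ a → v ≠ b → v ≠ c → G.degree v = 1) :
    ∑ w ∈ G.neighborFinset a, f (G.degree a) (G.degree w) * wt (G.degree a) (G.degree w) =
      f p q / 2 + f p r / 2 + ((p : ℝ) - 2) * f p 1 := by
  have hsub : ({b, c} : Finset V) ⊆ G.neighborFinset a := by
    intro w hw
    rw [SimpleGraph.mem_neighborFinset]
    rcases Finset.mem_insert.1 hw with rfl | hw
    · exact hab
    · rw [Finset.mem_singleton.1 hw]; exact hac
  rw [← Finset.sum_sdiff hsub]
  have h1 : ∑ w ∈ G.neighborFinset a \ {b, c},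
      f (G.degree a) (G.degree w) * wt (G.degree a) (G.degree w) = ((p : ℝ) - 2) * f p 1 := by
    rw [Finset.sum_congr rfl (g := fun _ => f p 1)]
    · rw [Finset.sum_const, nsmul_eq_mul, Finset.card_sdiff_of_subset hsub,
        G.card_neighborFinset_eq_degree, hp, Finset.card_pair hbc.ne]
      have : 2 ≤ p := by
        have := Finset.card_le_card hsub
        rw [Finset.card_pair hbc.ne, G.card_neighborFinset_eq_degree, hp] at this
        exact this
      rw [Nat.cast_sub this]
      norm_num
    · intro w hw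
      rw [Finset.mem_sdiff, SimpleGraph.mem_neighborFinset, Finset.mem_insert,
        Finset.mem_singleton] at hw
      push Not at hw
      rw [hv w hw.1.ne' hw.2.1 hw.2.2, hp]
      simp [wt]
  rw [h1, Finset.sum_pair hbc.ne, hp, hq, hr]
  simp only [wt, if_neg hp1, if_neg hq1, if_neg hr1]
  ring

theorem CU.tri_val (h : CU G) (h3 : 3 ≤ Fintype.card V) {p q r : ℕ} (ht : Tri G p q r)
    (hp1 : p ≠ 1) (hq1 : q ≠ 1) (hr1 : r ≠ 1) :
    eus G = f p q + f q r + f p r + ((p : ℝ) - 2) * f p 1 + ((q : ℝ) - 2) * f q 1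
      + ((r : ℝ) - 2) * f r 1 := by
  obtain ⟨a, b, c, hab, hbc, hac, hp, hq, hr, hv⟩ := ht
  have h1 : eus G = ∑ v, ∑ w ∈ G.neighborFinset v,
      f (G.degree v) (G.degree w) * wt (G.degree v) (G.degree w) := by
    rw [handshake G (fun v w => f (G.degree v) (G.degree w) * wt (G.degree v) (G.degree w))]
    unfold eus
    refine Finset.sum_congr rfl fun e he => ?_
    induction e with
    | _ u v =>
      have huv : G.Adj u v := by simpa using he
      have hn := h.no11 h3 huv
      show f (G.degree u) (G.degree v) = f (G.degree u) (G.degree v) * wt (G.degree u) (G.degree v)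
        + f (G.degree v) (G.degree u) * wt (G.degree v) (G.degree u)
      rw [f_comm (G.degree v) (G.degree u), ← mul_add]
      have : wt (G.degree u) (G.degree v) + wt (G.degree v) (G.degree u) = 1 := by
        unfold wt
        split_ifs with h1 h2 h3
        · exact absurd ⟨h2, h1⟩ hn
        · norm_num
        · norm_num
        · norm_num
      rw [this, mul_one]
  rw [h1]
  have hsub : ({a, b, c} : Finset V) ⊆ univ := Finset.subset_univ _
  rw [← Finset.sum_subset hsub]
  · rw [Finset.sum_insert (by simp [hab.ne, hac.ne]), Finset.sum_pair hbc.ne]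
    rw [nbr_sum hab hbc hac hp hq hr hp1 hq1 hr1 hv]
    rw [nbr_sum hab.symm hac hbc hq hp hr hq1 hp1 hr1 (fun v h1 h2 h3 => hv v h2 h1 h3)]
    rw [nbr_sum hac.symm hab hbc.symm hr hp hq hr1 hp1 hq1 (fun v h1 h2 h3 => hv v h2 h3 h1)]
    rw [f_comm q p, f_comm r p, f_comm r q]
    ring
  · intro v _ hvv
    simp only [mem_insert, mem_singleton, not_or] at hvv
    have hv1 := hv v hvv.1 hvv.2.1 hvv.2.2
    refine Finset.sum_eq_zero fun w hw => ?_
    rw [SimpleGraph.mem_neighborFinset] at hw
    have hn := h.no11 h3 hw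
    have : G.degree w ≠ 1 := fun hh => hn ⟨hv1, hh⟩
    unfold wt
    rw [if_neg this, if_pos hv1, mul_zero]

end graph

end Pool.Agent.Q179.ES
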