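import Pool.Agent.Q179.ES.Small

namespace Pool.Agent.Q179.ES

open Finset

section attach
variable {V : Type*} [Fintype V] [DecidableEq V] (G : SimpleGraph V) [DecidableRel G.Adj]

/-- adjacency of the graph with `k` pendant vertices attached at `l` -/
def attAdj (l : V) (k : ℕ) : V ⊕ Fin k → V ⊕ Fin k → Prop
  | .inl a, .inl b => G.Adj a b
  | .inl a, .inr _ => a = l
  | .inr _, .inl b => b = l
  | .inr _, .inr _ => False

/-- attach `k` pendant vertices at `l` -/
def att (l : V) (k : ℕ) : SimpleGraph (V ⊕ Fin k) where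
  Adj := attAdj G l k
  symm := ⟨by
    rintro (a | i) (b | j) h
    · exact (show G.Adj a b from h).symm
    · exact h
    · exact h
    · exact h⟩
  loopless := ⟨by
    rintro (a | i) h
    · exact G.loopless.irrefl a h
    · exact h⟩

instance (l : V) (k : ℕ) : DecidableRel (att G l k).Adj := by
  rintro (a | i) (b | j)
  · exact inferInstanceAs (Decidable (G.Adj a b))
  · exact inferInstanceAs (Decidable (a = l))
  · exact inferInstanceAs (Decidable (b = l))
  · exact inferInstanceAs (Decidable False)

theorem att_deg_inl (l : V) (k : ℕ) (a : V) :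
    (att G l k).degree (.inl a) = G.degree a + if a = l then k else 0 := by
  rw [← SimpleGraph.card_neighborFinset_eq_degree, ← SimpleGraph.card_neighborFinset_eq_degree]
  have : (att G l k).neighborFinset (.inl a) =
      (G.neighborFinset a).disjSum (if a = l then univ else ∅) := by
    ext x
    rcases x with b | j
    · simp only [SimpleGraph.mem_neighborFinset, Finset.inl_mem_disjSum]
      exact Iff.rfl
    · simp only [SimpleGraph.mem_neighborFinset, Finset.inr_mem_disjSum]
      show a = l ↔ _
      split_ifs with h <;> simp [h]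
  rw [this, Finset.card_disjSum]
  split_ifs <;> simp

theorem att_deg_inr (l : V) (k : ℕ) (j : Fin k) : (att G l k).degree (.inr j) = 1 := by
  rw [← SimpleGraph.card_neighborFinset_eq_degree]
  have : (att G l k).neighborFinset (.inr j) = {.inl l} := by
    ext x
    rcases x with b | j
    · simp only [SimpleGraph.mem_neighborFinset, Finset.mem_singleton, Sum.inl.injEq]
      exact Iff.rfl
    · simp only [SimpleGraph.mem_neighborFinset, Finset.mem_singleton, reduceCtorEq, iff_false]
      exact fun h => h
  rw [this, Finset.card_singleton]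

theorem att_conn (l : V) (k : ℕ) (h : G.Connected) : (att G l k).Connected := by
  have hl : ∀ x, (att G l k).Reachable (.inl l) x := by
    rintro (a | j)
    · obtain ⟨p⟩ := h.preconnected l a
      exact ⟨p.map (⟨Sum.inl, fun {a b} hab => hab⟩ : G →g att G l k)⟩
    · exact (show (att G l k).Adj (.inl l) (.inr j) from rfl).reachable
  have : Nonempty (V ⊕ Fin k) := ⟨.inl l⟩
  exact ⟨fun x y => (hl x).symm.trans (hl y)⟩

theorem att_edges (l : V) (k : ℕ) :
    (att G l k).edgeFinset.card = G.edgeFinset.card + k := by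
  have h1 := (att G l k).sum_degrees_eq_twice_card_edges
  have h2 := G.sum_degrees_eq_twice_card_edges
  rw [Fintype.sum_sum_type] at h1
  simp only [att_deg_inl, att_deg_inr, Finset.sum_add_distrib, Finset.sum_ite_eq', mem_univ,
    if_true] at h1
  simp at h1
  omega

end attach

section good
variable {V : Type*} [Fintype V] [DecidableEq V] (G : SimpleGraph V) [DecidableRel G.Adj]

/-- a convenient form of the generic extremal property -/
structure Gd : Prop extends CU G where
  e4 : ∀ u v, G.Adj u v → G.degree u = 4 ∨ G.degree v = 4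
  uniq : ∀ u v, (G.degree u = 2 ∨ G.degree u = 3) → (G.degree v = 2 ∨ G.degree v = 3) → u = v
  leaf : ∃ l, G.degree l = 1

variable {G}

theorem Gd.step (h : Gd G) : ∃ l, Gd (att G l 3) := by
  obtain ⟨l, hl⟩ := h.leaf
  refine ⟨l, ⟨⟨att_conn G l 3 h.conn, ?_, ?_⟩, ?_, ?_, ⟨.inr 0, att_deg_inr _ _ _ _⟩⟩⟩
  · rw [att_edges, h.edges]; simp
  · rintro (a | j)
    · rw [att_deg_inl]
      split_ifs with h1
      · rw [h1, hl]
      · exact h.chem a
    · rw [att_deg_inr]; norm_num
  · rintro (a | i) (b | j) hab
    · rw [att_deg_inl, att_deg_inl]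
      have := h.e4 a b hab
      split_ifs with h1 h2 h2
      · left; rw [h1, hl]
      · left; rw [h1, hl]
      · right; rw [h2, hl]
      · exact this
    · left
      have : a = l := hab
      rw [att_deg_inl, if_pos this, this, hl]
    · right
      have : b = l := hab
      rw [att_deg_inl, if_pos this, this, hl]
    · exact hab.elim
  · rintro (a | i) (b | j) h1 h2
    · rw [att_deg_inl] at h1 h2
      by_cases ha : a = l
      · rw [if_pos ha, ha, hl] at h1; omega
      · by_cases hb : b = l
        · rw [if_pos hb, hb, hl] at h2; omega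
        · rw [if_neg ha] at h1
          rw [if_neg hb] at h2
          rw [h.uniq a b h1 h2]
    · rw [att_deg_inr] at h2; omega
    · rw [att_deg_inr] at h1; omega
    · rw [att_deg_inr] at h1; omega

end good

section iso
variable {V W : Type*} [Fintype V] [DecidableEq V] [Fintype W] [DecidableEq W]
  {G : SimpleGraph V} [DecidableRel G.Adj] {H : SimpleGraph W} [DecidableRel H.Adj]

theorem iso_deg (e : G ≃g H) (v : V) : H.degree (e v) = G.degree v := by
  rw [← SimpleGraph.card_neighborFinset_eq_degree, ← SimpleGraph.card_neighborFinset_eq_degree]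
  symm
  refine Finset.card_bij (fun a _ => e a) ?_ ?_ ?_
  · intro a ha
    rw [SimpleGraph.mem_neighborFinset] at ha ⊢
    exact e.map_adj_iff.2 ha
  · intro a _ b _ hab
    exact e.injective hab
  · intro b hb
    rw [SimpleGraph.mem_neighborFinset] at hb
    refine ⟨e.symm b, ?_, by simp⟩
    rw [SimpleGraph.mem_neighborFinset, ← e.map_adj_iff]
    simpa using hb

theorem Gd.iso (h : Gd G) (e : G ≃g H) : Gd H := by
  have hs : ∀ w, H.degree w = G.degree (e.symm w) := by
    intro w
    rw [← iso_deg e (e.symm w)]; simp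
  refine ⟨⟨e.connected_iff.1 h.conn, ?_, ?_⟩, ?_, ?_, ?_⟩
  · rw [← Fintype.card_congr e.toEquiv, ← h.edges]
    have h1 := H.sum_degrees_eq_twice_card_edges
    have h2 := G.sum_degrees_eq_twice_card_edges
    have h3 : ∑ w, H.degree w = ∑ v, G.degree v := by
      rw [← Equiv.sum_comp e.toEquiv]
      exact Finset.sum_congr rfl fun v _ => iso_deg e v
    omega
  · intro w; rw [hs]; exact h.chem _
  · intro u v huv
    rw [hs, hs]
    exact h.e4 _ _ (e.symm.map_adj_iff.2 huv)
  · intro u v hu hv
    rw [hs] at hu hv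
    exact e.symm.injective (h.uniq _ _ hu hv)
  · obtain ⟨l, hl⟩ := h.leaf
    exact ⟨e l, by rw [iso_deg, hl]⟩

end iso

theorem Gd.succ {n : ℕ} (h : ∃ (G : SimpleGraph (Fin n)) (_ : DecidableRel G.Adj), Gd G) :
    ∃ (G : SimpleGraph (Fin (n + 3))) (_ : DecidableRel G.Adj), Gd G := by
  obtain ⟨G, hG, h⟩ := h
  obtain ⟨l, hl⟩ := h.step
  refine ⟨(att G l 3).comap finSumFinEquiv.symm, inferInstance, ?_⟩
  exact hl.iso (SimpleGraph.Iso.comap finSumFinEquiv.symm (att G l 3)).symm

/-- connectivity from a decidable criterion -/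
theorem conn_of_lt {n : ℕ} (G : SimpleGraph (Fin (n + 1)))
    (h : ∀ i : Fin (n + 1), i ≠ 0 → ∃ j, j < i ∧ G.Adj i j) : G.Connected := by
  have h0 : ∀ k : ℕ, ∀ i : Fin (n + 1), i.val = k → G.Reachable i 0 := by
    intro k
    induction k using Nat.strong_induction_on with
    | _ k ih =>
      intro i hi
      by_cases h1 : i = 0
      · rw [h1]
      · obtain ⟨j, hj, hij⟩ := h i h1
        exact hij.reachable.trans (ih j.val (by omega) j rfl)
  exact ⟨fun x y => (h0 _ x rfl).trans (h0 _ y rfl).symm⟩

/-- the graph with edges `i`, `p i` -/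
def pg {n : ℕ} (p : Fin n → Fin n) : SimpleGraph (Fin n) := SimpleGraph.fromRel (fun i j => p i = j)

instance {n : ℕ} (p : Fin n → Fin n) : DecidableRel (pg p).Adj :=
  inferInstanceAs (DecidableRel (SimpleGraph.fromRel (fun i j => p i = j)).Adj)

theorem cu_of {n : ℕ} (G : SimpleGraph (Fin (n + 1))) [DecidableRel G.Adj]
    (h : ∀ i : Fin (n + 1), i ≠ 0 → ∃ j, j < i ∧ G.Adj i j)
    (h1 : ∑ v, G.degree v = 2 * (n + 1)) (h2 : ∀ v, G.degree v ≤ 4) : CU G := by
  refine ⟨conn_of_lt G h, ?_, h2⟩
  have := G.sum_degrees_eq_twice_card_edges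
  rw [Fintype.card_fin]
  omega

theorem base7 : Gd (pg (![1, 2, 0, 0, 0, 1, 1] : Fin 7 → Fin 7)) := by
  refine ⟨cu_of _ (by decide) (by decide) (by decide), by decide, by decide, ⟨3, by decide⟩⟩

theorem base9 : Gd (pg (![1, 2, 0, 0, 0, 1, 1, 2, 2] : Fin 9 → Fin 9)) := by
  refine ⟨cu_of _ (by decide) (by decide) (by decide), by decide, by decide, ⟨3, by decide⟩⟩

theorem base11 : Gd (pg (![1, 2, 0, 0, 0, 1, 1, 2, 7, 7, 7] : Fin 11 → Fin 11)) := by
  refine ⟨cu_of _ (by decide) (by decide) (by decide), by decide, by decide, ⟨3, by decide⟩⟩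

theorem exists_gd (n : ℕ) (h7 : 7 ≤ n) (h8 : n ≠ 8) :
    ∃ (G : SimpleGraph (Fin n)) (_ : DecidableRel G.Adj), Gd G := by
  induction n using Nat.strong_induction_on with
  | _ n ih =>
    rcases Nat.lt_or_ge n 12 with h | h
    · interval_cases n
      · exact ⟨_, inferInstance, base7⟩
      · exact absurd rfl h8
      · exact ⟨_, inferInstance, base9⟩
      · exact Gd.succ ⟨_, inferInstance, base7⟩
      · exact ⟨_, inferInstance, base11⟩
    · obtain ⟨m, rfl⟩ := Nat.exists_eq_add_of_le' (show 3 ≤ n by omega)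
      exact Gd.succ (ih m (by omega) (by omega) (by omega))

end Pool.Agent.Q179.ES
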