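import Pool.Agent.Q179.ES.Graph

namespace Pool.Agent.Q179.ES

open Finset

/-- the generic value -/
noncomputable def Mgen (n : ℕ) : ℝ :=
  if n % 3 = 0 then (n : ℝ) / 3 * (2 * f 1 4 + f 4 4)
  else if n % 3 = 1 then 2 * ((n : ℝ) - 1) / 3 * f 1 4 + 2 * f 2 4 + ((n : ℝ) - 4) / 3 * f 4 4
  else (2 * (n : ℝ) - 1) / 3 * f 1 4 + 3 * f 3 4 + ((n : ℝ) - 8) / 3 * f 4 4

/-- the linear bound -/
noncomputable def B (a b c : ℕ) : ℝ :=
  a * (2 * f 2 4 - f 4 4) + b * (f 1 4 + 3 * f 3 4 - 2 * f 4 4) + c * (2 * f 1 4 + f 4 4)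

theorem B_eq {a b c n : ℕ} (hn : n = a + 2 * b + 3 * c) :
    B a b c = (n : ℝ) * (2 * f 1 4 + f 4 4) / 3
      - a * ((2 * f 1 4 + f 4 4) / 3 - (2 * f 2 4 - f 4 4))
      - b * (2 * (2 * f 1 4 + f 4 4) / 3 - (f 1 4 + 3 * f 3 4 - 2 * f 4 4)) := by
  subst hn
  unfold B
  push_cast
  ring

theorem B_small {a b c n : ℕ} (hn : n = a + 2 * b + 3 * c) (h : a + b ≤ 1) :
    B a b c = Mgen n := by
  have : (a = 0 ∧ b = 0) ∨ (a = 1 ∧ b = 0) ∨ (a = 0 ∧ b = 1) := by omega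
  unfold B Mgen
  rcases this with ⟨rfl, rfl⟩ | ⟨rfl, rfl⟩ | ⟨rfl, rfl⟩
  · rw [if_pos (by omega), hn]; push_cast; ring
  · rw [if_neg (by omega), if_pos (by omega), hn]; push_cast; ring
  · rw [if_neg (by omega), if_neg (by omega), hn]; push_cast; ring

theorem B_large {a b c n : ℕ} (hn : n = a + 2 * b + 3 * c) (h : 2 ≤ a + b) :
    B a b c < Mgen n := by
  rw [B_eq hn]
  have e14 := f14
  have e24 := f24
  have e34 := f34
  have e44 := f44
  have ha : (0 : ℝ) ≤ a := Nat.cast_nonneg a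
  have hb : (0 : ℝ) ≤ b := Nat.cast_nonneg b
  have hab : (2 : ℝ) ≤ a + b := by exact_mod_cast h
  have d2 : 1.7 ≤ (2 * f 1 4 + f 4 4) / 3 - (2 * f 2 4 - f 4 4) := by linarith
  have d3 : 1.7 ≤ 2 * (2 * f 1 4 + f 4 4) / 3 - (f 1 4 + 3 * f 3 4 - 2 * f 4 4) := by linarith
  have k2 := mul_le_mul_of_nonneg_left d2 ha
  have k3 := mul_le_mul_of_nonneg_left d3 hb
  have key : (n : ℝ) * (2 * f 1 4 + f 4 4) / 3 - 2 < Mgen n := by
    unfold Mgen
    split_ifs with h0 h1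
    · linarith
    · have : (n : ℝ) * (2 * f 1 4 + f 4 4) / 3 - 2 <
        2 * ((n : ℝ) - 1) / 3 * f 1 4 + 2 * f 2 4 + ((n : ℝ) - 4) / 3 * f 4 4 ↔
        (2 * f 1 4 + 4 * f 4 4) / 3 - 2 < 2 * f 2 4 := by
        constructor <;> intro h <;> linarith
      rw [this]; linarith
    · have : (n : ℝ) * (2 * f 1 4 + f 4 4) / 3 - 2 <
        (2 * (n : ℝ) - 1) / 3 * f 1 4 + 3 * f 3 4 + ((n : ℝ) - 8) / 3 * f 4 4 ↔
        (f 1 4 + 8 * f 4 4) / 3 - 2 < 3 * f 3 4 := by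
        constructor <;> intro h <;> linarith
      rw [this]; linarith
  linarith

section graph
variable {V : Type*} [Fintype V] [DecidableEq V] {G : SimpleGraph V} [DecidableRel G.Adj]

variable (G) in
/-- every edge has an end of degree 4, and at most one vertex has degree 2 or 3 -/
def Reg : Prop :=
  (∀ u v, G.Adj u v → G.degree u = 4 ∨ G.degree v = 4) ∧ N G 2 + N G 3 ≤ 1

theorem CU.le_B (h : CU G) (h3 : 3 ≤ Fintype.card V) : eus G ≤ B (N G 2) (N G 3) (N G 4) := by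
  have hd : ∀ v, 1 ≤ G.degree v ∧ G.degree v ≤ 4 := fun v => ⟨h.deg_pos h3 v, h.chem v⟩
  have := eus_le hd
  rw [h.bound_val h3] at this
  exact this

theorem CU.gen (h : CU G) (h3 : 3 ≤ Fintype.card V) :
    eus G ≤ Mgen (Fintype.card V) ∧ (eus G = Mgen (Fintype.card V) ↔ Reg G) := by
  have hd : ∀ v, 1 ≤ G.degree v ∧ G.degree v ≤ 4 := fun v => ⟨h.deg_pos h3 v, h.chem v⟩
  have hB := h.le_B h3
  have hc := (h.counts h3).2
  by_cases hs : N G 2 + N G 3 ≤ 1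
  · have hM := B_small hc hs
    rw [← hM]
    refine ⟨hB, ?_⟩
    have := eus_eq_iff hd
    rw [h.bound_val h3] at this
    change eus G = B (N G 2) (N G 3) (N G 4) ↔ _ at this
    rw [this]
    exact ⟨fun h => ⟨h, hs⟩, fun h => h.1⟩
  · have hM := B_large hc (by omega)
    refine ⟨(hB.trans_lt hM).le, fun he => ?_, fun he => ?_⟩
    · exact absurd he (hB.trans_lt hM).ne
    · exact absurd he.2 hs

end graph

end Pool.Agent.Q179.ES
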