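import Mathlib

namespace Pool.Agent.Q179.ES

open Finset

section hand
variable {V : Type*} [Fintype V] [DecidableEq V] (G : SimpleGraph V) [DecidableRel G.Adj]

theorem sum_darts_fst (F : V → V → ℝ) :
    ∑ v, ∑ w ∈ G.neighborFinset v, F v w = ∑ d : G.Dart, F d.fst d.snd := by
  rw [← Finset.sum_fiberwise (s := univ) (g := fun d : G.Dart => d.fst)]
  refine sum_congr rfl fun v _ => ?_
  rw [G.dart_fst_fiber v, sum_image (fun a _ b _ h => G.dartOfNeighborSet_injective v h)]
  rw [← Finset.sum_coe_sort (G.neighborFinset v)]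
  refine Fintype.sum_equiv (Equiv.subtypeEquivRight (fun w => by simp)) _ _ ?_
  intro w
  rfl

/-- The weighted hand shaking lemma. -/
theorem handshake (F : V → V → ℝ) :
    ∑ v, ∑ w ∈ G.neighborFinset v, F v w =
      ∑ e ∈ G.edgeFinset, Sym2.lift ⟨fun u v => F u v + F v u, fun _ _ => add_comm _ _⟩ e := by
  rw [sum_darts_fst]
  rw [← Finset.sum_fiberwise_of_maps_to (s := univ) (t := G.edgeFinset)
    (g := fun d : G.Dart => d.edge) (fun d _ => by
      rw [SimpleGraph.mem_edgeFinset]; exact d.edge_mem)]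
  refine sum_congr rfl fun e he => ?_
  rw [SimpleGraph.mem_edgeFinset] at he
  induction e with
  | _ v w =>
    let d : G.Dart := ⟨(v, w), he⟩
    have h1 : ({d' : G.Dart | d'.edge = s(v, w)} : Finset _) = {d, d.symm} := d.edge_fiber
    rw [h1, sum_pair (SimpleGraph.Dart.symm_ne d).symm]
    rfl

end hand

end Pool.Agent.Q179.ES
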