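import Pool.Agent.Q179.ES.Num
import Pool.Agent.Q179.ES.Hand

namespace Pool.Agent.Q179.ES

open Finset

section graph
variable {V : Type*} [Fintype V] [DecidableEq V] (G : SimpleGraph V) [DecidableRel G.Adj]

/-- Euler Sombor index -/
noncomputable def eus : ℝ :=
  ∑ e ∈ G.edgeFinset, Sym2.lift ⟨fun u v => f (G.degree u) (G.degree v), fun _ _ => f_comm _ _⟩ e

/-- chemical unicyclic graph -/
structure CU : Prop where
  conn : G.Connected
  edges : G.edgeFinset.card = Fintype.card V
  chem : ∀ v, G.degree v ≤ 4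

variable {G}

theorem CU.deg_pos (h : CU G) (h3 : 3 ≤ Fintype.card V) (v : V) : 1 ≤ G.degree v := by
  have : Nontrivial V := Fintype.one_lt_card_iff_nontrivial.1 (by omega)
  exact h.conn.preconnected.degree_pos_of_nontrivial v

theorem CU.no11 (h : CU G) (h3 : 3 ≤ Fintype.card V) {u v : V} (huv : G.Adj u v) :
    ¬ (G.degree u = 1 ∧ G.degree v = 1) := by
  rintro ⟨h1, h2⟩
  obtain ⟨u', hu', hu''⟩ := G.degree_eq_one_iff_existsUnique_adj.1 h1
  obtain ⟨v', hv', hv''⟩ := G.degree_eq_one_iff_existsUnique_adj.1 h2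
  have key : ∀ w, w = u ∨ w = v := by
    intro w
    obtain ⟨p⟩ := h.conn.preconnected u w
    have : ∀ {a b : V} (p : G.Walk a b), (a = u ∨ a = v) → (b = u ∨ b = v) := by
      intro a b p
      induction p with
      | nil => exact id
      | cons hab _ ih =>
        intro ha
        apply ih
        rcases ha with rfl | rfl
        · right; rw [hu'' _ hab, hu'' _ huv]
        · left; rw [hv'' _ hab, hv'' _ huv.symm]
    exact this p (Or.inl rfl)
  have : (univ : Finset V) ⊆ {u, v} := by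
    intro w _
    simpa using key w
  have h4 := Finset.card_le_card this
  have h5 := Finset.card_le_two (a := u) (b := v)
  rw [Finset.card_univ] at h4
  omega

variable (G) in
/-- number of vertices of degree `i` -/
def N (i : ℕ) : ℕ := (univ.filter (fun v => G.degree v = i)).card

theorem sum_deg (hd : ∀ v, 1 ≤ G.degree v ∧ G.degree v ≤ 4) (h : ℕ → ℝ) :
    ∑ v, h (G.degree v) = N G 1 * h 1 + N G 2 * h 2 + N G 3 * h 3 + N G 4 * h 4 := by
  rw [← Finset.sum_fiberwise_of_maps_to (s := univ) (t := Finset.Icc 1 4)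
    (g := fun v => G.degree v) (fun v _ => by simpa using hd v)]
  have : ∀ i ∈ Finset.Icc 1 4, ∑ v with G.degree v = i, h (G.degree v) = N G i * h i := by
    intro i _
    rw [Finset.sum_congr rfl (g := fun _ => h i)]
    · rw [Finset.sum_const, nsmul_eq_mul]; rfl
    · intro v hv
      rw [(Finset.mem_filter.1 hv).2]
  rw [Finset.sum_congr rfl this]
  simp [Finset.sum_Icc_succ_top]

theorem CU.sum_deg (h : CU G) : ∑ v, G.degree v = 2 * Fintype.card V := by
  rw [G.sum_degrees_eq_twice_card_edges, h.edges]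

theorem CU.counts (h : CU G) (h3 : 3 ≤ Fintype.card V) :
    N G 1 = N G 3 + 2 * N G 4 ∧ Fintype.card V = N G 2 + 2 * N G 3 + 3 * N G 4 := by
  have hd : ∀ v, 1 ≤ G.degree v ∧ G.degree v ≤ 4 := fun v => ⟨h.deg_pos h3 v, h.chem v⟩
  have e1 := ES.sum_deg hd (fun _ => 1)
  have e2 := ES.sum_deg hd (fun i => (i : ℝ))
  have e3 := h.sum_deg
  have e1' : Fintype.card V = N G 1 + N G 2 + N G 3 + N G 4 := by
    have : ((Fintype.card V : ℕ) : ℝ) = ((N G 1 + N G 2 + N G 3 + N G 4 : ℕ) : ℝ) := by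
      push_cast
      simpa using e1
    exact_mod_cast this
  have e2' : 2 * Fintype.card V = N G 1 + N G 2 * 2 + N G 3 * 3 + N G 4 * 4 := by
    rw [← e3]
    have : ((∑ v, G.degree v : ℕ) : ℝ) = ((N G 1 + N G 2 * 2 + N G 3 * 3 + N G 4 * 4 : ℕ) : ℝ) := by
      push_cast
      simpa using e2
    exact_mod_cast this
  omega

theorem psi_sum : ∑ e ∈ G.edgeFinset, Sym2.lift ⟨fun u v => psi (G.degree u) + psi (G.degree v),
      fun _ _ => add_comm _ _⟩ e = ∑ v, (G.degree v : ℝ) * psi (G.degree v) := by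
  rw [← handshake G (fun v _ => psi (G.degree v))]
  refine sum_congr rfl fun v _ => ?_
  rw [sum_const, nsmul_eq_mul, G.card_neighborFinset_eq_degree]

theorem eus_le (hd : ∀ v, 1 ≤ G.degree v ∧ G.degree v ≤ 4) :
    eus G ≤ ∑ v, (G.degree v : ℝ) * psi (G.degree v) := by
  rw [← psi_sum]
  unfold eus
  refine sum_le_sum fun e _ => ?_
  induction e with
  | _ u v => exact f_le_psi _ _ (hd u).1 (hd u).2 (hd v).1 (hd v).2

theorem eus_eq_iff (hd : ∀ v, 1 ≤ G.degree v ∧ G.degree v ≤ 4) :
    eus G = ∑ v, (G.degree v : ℝ) * psi (G.degree v) ↔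
      ∀ u v, G.Adj u v → G.degree u = 4 ∨ G.degree v = 4 := by
  constructor
  · intro h u v huv
    by_contra hc
    push Not at hc
    have : eus G < ∑ v, (G.degree v : ℝ) * psi (G.degree v) := by
      rw [← psi_sum]
      unfold eus
      refine sum_lt_sum (fun e _ => ?_) ⟨s(u, v), by simpa using huv, ?_⟩
      · induction e with
        | _ u v => exact f_le_psi _ _ (hd u).1 (hd u).2 (hd v).1 (hd v).2
      · exact f_lt_psi _ _ (hd u).1 (hd u).2 (hd v).1 (hd v).2 hc.1 hc.2
    exact this.ne h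
  · intro h
    rw [← psi_sum]
    unfold eus
    refine sum_congr rfl fun e he => ?_
    induction e with
    | _ u v =>
      exact f_eq_psi _ _ (h u v (by simpa using he))

/-- the bound in terms of the numbers of vertices of degree 2, 3, 4 -/
theorem CU.bound_val (h : CU G) (h3 : 3 ≤ Fintype.card V) :
    ∑ v, (G.degree v : ℝ) * psi (G.degree v) =
      N G 2 * (2 * f 2 4 - f 4 4) + N G 3 * (f 1 4 + 3 * f 3 4 - 2 * f 4 4)
        + N G 4 * (2 * f 1 4 + f 4 4) := by
  have hd : ∀ v, 1 ≤ G.degree v ∧ G.degree v ≤ 4 := fun v => ⟨h.deg_pos h3 v, h.chem v⟩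
  rw [ES.sum_deg hd (fun i => (i : ℝ) * psi i)]
  have h1 := (h.counts h3).1
  rw [h1]
  unfold psi
  push_cast
  ring

end graph

end Pool.Agent.Q179.ES
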