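import Mathlib

namespace Pool.Agent.Q179.ES

/-- the weight of an edge whose ends have degrees `a` and `b` -/
noncomputable def f (a b : ℕ) : ℝ := Real.sqrt ((a : ℝ) ^ 2 + (b : ℝ) ^ 2 + a * b)

theorem f_comm (a b : ℕ) : f a b = f b a := by
  unfold f; congr 1; ring

theorem sqrt_between {x a b : ℝ} (_ha : 0 ≤ a) (hb : 0 ≤ b) (h1 : a ^ 2 ≤ x) (h2 : x ≤ b ^ 2) :
    a ≤ Real.sqrt x ∧ Real.sqrt x ≤ b :=
  ⟨Real.le_sqrt_of_sq_le h1, by rw [Real.sqrt_le_left hb]; exact h2⟩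

theorem f11 : 1.732 ≤ f 1 1 ∧ f 1 1 ≤ 1.7321 := by
  unfold f; apply sqrt_between <;> norm_num
theorem f12 : 2.6457 ≤ f 1 2 ∧ f 1 2 ≤ 2.6458 := by
  unfold f; apply sqrt_between <;> norm_num
theorem f13 : 3.6055 ≤ f 1 3 ∧ f 1 3 ≤ 3.6056 := by
  unfold f; apply sqrt_between <;> norm_num
theorem f14 : 4.5825 ≤ f 1 4 ∧ f 1 4 ≤ 4.5826 := by
  unfold f; apply sqrt_between <;> norm_num
theorem f22 : 3.4641 ≤ f 2 2 ∧ f 2 2 ≤ 3.4642 := by
  unfold f; apply sqrt_between <;> norm_num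
theorem f23 : 4.3588 ≤ f 2 3 ∧ f 2 3 ≤ 4.3589 := by
  unfold f; apply sqrt_between <;> norm_num
theorem f24 : 5.2915 ≤ f 2 4 ∧ f 2 4 ≤ 5.2916 := by
  unfold f; apply sqrt_between <;> norm_num
theorem f33 : 5.1961 ≤ f 3 3 ∧ f 3 3 ≤ 5.1962 := by
  unfold f; apply sqrt_between <;> norm_num
theorem f34 : 6.0827 ≤ f 3 4 ∧ f 3 4 ≤ 6.0828 := by
  unfold f; apply sqrt_between <;> norm_num
theorem f44 : 6.9282 ≤ f 4 4 ∧ f 4 4 ≤ 6.9283 := by
  unfold f; apply sqrt_between <;> norm_num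

/-- dual weights -/
noncomputable def psi (a : ℕ) : ℝ := f a 4 - f 4 4 / 2

theorem f_eq_psi (a b : ℕ) (h : a = 4 ∨ b = 4) : f a b = psi a + psi b := by
  unfold psi
  rcases h with rfl | rfl
  · rw [f_comm b 4]; ring
  · ring

theorem f_lt_psi (a b : ℕ) (ha : 1 ≤ a) (ha' : a ≤ 4) (hb : 1 ≤ b) (hb' : b ≤ 4)
    (h4 : a ≠ 4) (h4' : b ≠ 4) : f a b < psi a + psi b := by
  unfold psi
  have e11 := f11
  have e12 := f12
  have e13 := f13
  have e14 := f14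
  have e22 := f22
  have e23 := f23
  have e24 := f24
  have e33 := f33
  have e34 := f34
  have e44 := f44
  have a1 : a = 1 ∨ a = 2 ∨ a = 3 := by omega
  have b1 : b = 1 ∨ b = 2 ∨ b = 3 := by omega
  rcases a1 with rfl | rfl | rfl <;> rcases b1 with rfl | rfl | rfl
  · linarith [e11.1, e11.2, e14.1, e44.2]
  · linarith
  · linarith
  · rw [f_comm 2 1]; linarith
  · linarith
  · linarith
  · rw [f_comm 3 1]; linarith
  · rw [f_comm 3 2]; linarith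
  · linarith

theorem f_le_psi (a b : ℕ) (ha : 1 ≤ a) (ha' : a ≤ 4) (hb : 1 ≤ b) (hb' : b ≤ 4) :
    f a b ≤ psi a + psi b := by
  by_cases h : a = 4 ∨ b = 4
  · exact (f_eq_psi a b h).le
  · push Not at h
    exact (f_lt_psi a b ha ha' hb hb' h.1 h.2).le

end Pool.Agent.Q179.ES
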