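import Pool.Agent.Q179.ES.Core

namespace Pool.Agent.Q179.ES

open Finset

theorem B_le {a b c n : ℕ} (hn : n = a + 2 * b + 3 * c) :
    B a b c ≤ n * 5.3645 - 1.7 * (a + b) := by
  rw [B_eq hn]
  have e14 := f14
  have e24 := f24
  have e34 := f34
  have e44 := f44
  have ha : (0 : ℝ) ≤ a := Nat.cast_nonneg a
  have hb : (0 : ℝ) ≤ b := Nat.cast_nonneg b
  have hn0 : (0 : ℝ) ≤ n := Nat.cast_nonneg n
  have d2 : 1.7 ≤ (2 * f 1 4 + f 4 4) / 3 - (2 * f 2 4 - f 4 4) := by linarith
  have d3 : 1.7 ≤ 2 * (2 * f 1 4 + f 4 4) / 3 - (f 1 4 + 3 * f 3 4 - 2 * f 4 4) := by linarith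
  have d4 : (2 * f 1 4 + f 4 4) / 3 ≤ 5.3645 := by linarith
  have k2 := mul_le_mul_of_nonneg_left d2 ha
  have k3 := mul_le_mul_of_nonneg_left d3 hb
  have k4 := mul_le_mul_of_nonneg_left d4 hn0
  linarith

/-- the value of the index on a triangle with pendant vertices -/
noncomputable def tv (p q r : ℕ) : ℝ :=
  f p q + f q r + f p r + ((p : ℝ) - 2) * f p 1 + ((q : ℝ) - 2) * f q 1 + ((r : ℝ) - 2) * f r 1

section graph
variable {V : Type*} [Fintype V] [DecidableEq V] {G : SimpleGraph V} [DecidableRel G.Adj]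

theorem Tri.swap12 {p q r : ℕ} (h : Tri G p q r) : Tri G q p r := by
  obtain ⟨a, b, c, h1, h2, h3, h4, h5, h6, h7⟩ := h
  exact ⟨b, a, c, h1.symm, h3, h2, h5, h4, h6, fun v x y z => h7 v y x z⟩

theorem Tri.swap23 {p q r : ℕ} (h : Tri G p q r) : Tri G p r q := by
  obtain ⟨a, b, c, h1, h2, h3, h4, h5, h6, h7⟩ := h
  exact ⟨a, c, b, h3, h2.symm, h1, h4, h6, h5, fun v x y z => h7 v x z y⟩

theorem CU.tri_of_three (h : CU G) (h3 : 3 ≤ Fintype.card V) (hc : (C G).card = 3) :
    ∃ p q r, Tri G p q r ∧ 2 ≤ r ∧ r ≤ q ∧ q ≤ p ∧ p ≤ 4 ∧ p + q + r = Fintype.card V + 3 := by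
  obtain ⟨a, b, c, hab, hac, hbc, hC⟩ := Finset.card_eq_three.1 hc
  have ha : a ∈ C G := by rw [hC]; simp
  have hb : b ∈ C G := by rw [hC]; simp
  have hcc : c ∈ C G := by rw [hC]; simp
  have hv : ∀ v, v ≠ a → v ≠ b → v ≠ c → G.degree v = 1 := by
    intro v h1 h2 h4
    rw [← h.not_mem_C h3, hC]
    simp [h1, h2, h4]
  have ht : Tri G (G.degree a) (G.degree b) (G.degree c) :=
    ⟨a, b, c, h.adj_of_three h3 hc ha hb hab, h.adj_of_three h3 hc hb hcc hbc,
      h.adj_of_three h3 hc ha hcc hac, rfl, rfl, rfl, hv⟩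
  have hsum : G.degree a + G.degree b + G.degree c = Fintype.card V + 3 := by
    have e1 : ∑ v ∈ C G, G.degree v + ∑ v ∈ (C G)ᶜ, G.degree v = 2 * Fintype.card V := by
      rw [Finset.sum_add_sum_compl, h.sum_deg]
    have e2 : ∑ v ∈ (C G)ᶜ, G.degree v = ((C G)ᶜ).card := by
      rw [Finset.sum_congr rfl (g := fun _ => 1)]
      · simp
      · intro v hv
        exact (h.not_mem_C h3).1 (Finset.mem_compl.1 hv)
    have e3 : (C G).card + ((C G)ᶜ).card = Fintype.card V := Finset.card_add_card_compl _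
    have e4 : ∑ v ∈ C G, G.degree v = G.degree a + (G.degree b + G.degree c) := by
      rw [hC, Finset.sum_insert (by simp [hab, hac]), Finset.sum_pair hbc]
    omega
  rw [mem_C] at ha hb hcc
  have ha4 := h.chem a
  have hb4 := h.chem b
  have hc4 := h.chem c
  rcases le_total (G.degree a) (G.degree b) with h1 | h1 <;>
  rcases le_total (G.degree b) (G.degree c) with h2 | h2 <;>
  rcases le_total (G.degree a) (G.degree c) with h4 | h4
  · exact ⟨_, _, _, ht.swap12.swap23.swap12, by omega, by omega, by omega, by omega, by omega⟩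
  · exact ⟨_, _, _, ht.swap12.swap23.swap12, by omega, by omega, by omega, by omega, by omega⟩
  · exact ⟨_, _, _, ht.swap12.swap23, by omega, by omega, by omega, by omega, by omega⟩
  · exact ⟨_, _, _, ht.swap12, by omega, by omega, by omega, by omega, by omega⟩
  · exact ⟨_, _, _, ht.swap23.swap12, by omega, by omega, by omega, by omega, by omega⟩
  · exact ⟨_, _, _, ht.swap23, by omega, by omega, by omega, by omega, by omega⟩
  · exact ⟨_, _, _, ht, by omega, by omega, by omega, by omega, by omega⟩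
  · exact ⟨_, _, _, ht, by omega, by omega, by omega, by omega, by omega⟩

theorem CU.four (h : CU G) (h3 : 3 ≤ Fintype.card V) (hc : (C G).card ≠ 3) (k : ℕ)
    (hk : 2 * k + Fintype.card V ≤ 12 + 1) :
    eus G ≤ Fintype.card V * 5.3645 - 1.7 * k := by
  have h1 := h.three_le h3
  have h2 := h.card_C h3
  have h4 := h.counts h3
  have h5 := h.le_B h3
  have h6 := B_le h4.2
  have h7 : k ≤ N G 2 + N G 3 := by omega
  have h8 : (k : ℝ) ≤ N G 2 + N G 3 := by exact_mod_cast h7
  linarith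

theorem CU.of_alt (h : CU G) (h3 : 3 ≤ Fintype.card V) {p q r : ℕ} (hp1 : p ≠ 1)
    (hq1 : q ≠ 1) (hr1 : r ≠ 1) (ha : Tri G p q r ∨ eus G < tv p q r) :
    eus G ≤ tv p q r ∧ (eus G = tv p q r ↔ Tri G p q r) := by
  have hv := fun ht : Tri G p q r => h.tri_val h3 ht hp1 hq1 hr1
  constructor
  · rcases ha with ha | ha
    · exact (hv ha).le
    · exact ha.le
  · constructor
    · intro he
      rcases ha with ha | ha
      · exact ha
      · exact absurd he ha.ne
    · exact hv

theorem CU.n3 (h : CU G) (h3 : Fintype.card V = 3) :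
    eus G ≤ tv 2 2 2 ∧ (eus G = tv 2 2 2 ↔ Tri G 2 2 2) := by
  refine h.of_alt (by omega) (by omega) (by omega) (by omega) (Or.inl ?_)
  have h1 := h.three_le (by omega)
  have h2 : (C G).card ≤ 3 := by
    rw [← h3, ← Finset.card_univ]; exact Finset.card_le_card (Finset.subset_univ _)
  obtain ⟨p, q, r, ht, e1, e2, e3, e4, e5⟩ := h.tri_of_three (by omega) (by omega)
  have : p = 2 ∧ q = 2 ∧ r = 2 := by omega
  obtain ⟨rfl, rfl, rfl⟩ := this
  exact ht

theorem CU.n4 (h : CU G) (h3 : Fintype.card V = 4) :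
    eus G ≤ tv 3 2 2 ∧ (eus G = tv 3 2 2 ↔ Tri G 3 2 2) := by
  refine h.of_alt (by omega) (by omega) (by omega) (by omega) ?_
  by_cases hc : (C G).card = 3
  · left
    obtain ⟨p, q, r, ht, e1, e2, e3, e4, e5⟩ := h.tri_of_three (by omega) hc
    have : p = 3 ∧ q = 2 ∧ r = 2 := by omega
    obtain ⟨rfl, rfl, rfl⟩ := this
    exact ht
  · right
    have := h.four (by omega) hc 4 (by omega)
    rw [h3] at this
    have e22 := f22
    have e23 := f23
    have e13 := f13
    have e12 := f12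
    unfold tv
    rw [f_comm 3 2, f_comm 3 1, f_comm 2 1]
    push_cast at this ⊢
    linarith

theorem CU.n5 (h : CU G) (h3 : Fintype.card V = 5) :
    eus G ≤ tv 4 2 2 ∧ (eus G = tv 4 2 2 ↔ Tri G 4 2 2) := by
  refine h.of_alt (by omega) (by omega) (by omega) (by omega) ?_
  have e22 := f22
  have e23 := f23
  have e13 := f13
  have e12 := f12
  have e33 := f33
  have e24 := f24
  have e14 := f14
  by_cases hc : (C G).card = 3
  · obtain ⟨p, q, r, ht, e1, e2, e3, e4, e5⟩ := h.tri_of_three (by omega) hc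
    have : (p = 4 ∧ q = 2 ∧ r = 2) ∨ (p = 3 ∧ q = 3 ∧ r = 2) := by omega
    rcases this with ⟨rfl, rfl, rfl⟩ | ⟨rfl, rfl, rfl⟩
    · left; exact ht
    · right
      rw [h.tri_val (by omega) ht (by omega) (by omega) (by omega)]
      unfold tv
      rw [f_comm 3 2, f_comm 3 1, f_comm 2 1, f_comm 4 2, f_comm 4 1]
      push_cast
      linarith
  · right
    have := h.four (by omega) hc 4 (by omega)
    rw [h3] at this
    unfold tv
    rw [f_comm 4 2, f_comm 4 1, f_comm 2 1]
    push_cast at this ⊢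
    linarith

theorem CU.n6 (h : CU G) (h3 : Fintype.card V = 6) :
    eus G ≤ tv 4 3 2 ∧ (eus G = tv 4 3 2 ↔ Tri G 4 3 2) := by
  refine h.of_alt (by omega) (by omega) (by omega) (by omega) ?_
  have e22 := f22
  have e23 := f23
  have e13 := f13
  have e12 := f12
  have e33 := f33
  have e24 := f24
  have e34 := f34
  have e14 := f14
  by_cases hc : (C G).card = 3
  · obtain ⟨p, q, r, ht, e1, e2, e3, e4, e5⟩ := h.tri_of_three (by omega) hc
    have : (p = 4 ∧ q = 3 ∧ r = 2) ∨ (p = 3 ∧ q = 3 ∧ r = 3) := by omega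
    rcases this with ⟨rfl, rfl, rfl⟩ | ⟨rfl, rfl, rfl⟩
    · left; exact ht
    · right
      rw [h.tri_val (by omega) ht (by omega) (by omega) (by omega)]
      unfold tv
      rw [f_comm 3 2, f_comm 3 1, f_comm 2 1, f_comm 4 2, f_comm 4 1, f_comm 4 3]
      push_cast
      linarith
  · right
    have := h.four (by omega) hc 3 (by omega)
    rw [h3] at this
    unfold tv
    rw [f_comm 4 2, f_comm 4 1, f_comm 2 1, f_comm 3 2, f_comm 3 1, f_comm 4 3]
    push_cast at this ⊢
    linarith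

theorem CU.n8 (h : CU G) (h3 : Fintype.card V = 8) :
    eus G ≤ tv 4 4 3 ∧ (eus G = tv 4 4 3 ↔ Tri G 4 4 3) := by
  refine h.of_alt (by omega) (by omega) (by omega) (by omega) ?_
  have e13 := f13
  have e34 := f34
  have e14 := f14
  have e44 := f44
  by_cases hc : (C G).card = 3
  · obtain ⟨p, q, r, ht, e1, e2, e3, e4, e5⟩ := h.tri_of_three (by omega) hc
    have : (p = 4 ∧ q = 4 ∧ r = 3) := by omega
    obtain ⟨rfl, rfl, rfl⟩ := this
    left; exact ht
  · right
    have := h.four (by omega) hc 2 (by omega)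
    rw [h3] at this
    unfold tv
    rw [f_comm 4 1, f_comm 3 1, f_comm 4 3]
    push_cast at this ⊢
    linarith

end graph

end Pool.Agent.Q179.ES
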